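import Pool.Agent.N604.MW.Stm10

/-!
# Project AD (helper604), leaf AHOL: blocks of different sizes (helper37)
-/

set_option autoImplicit false

namespace Pool.Agent.N37.ADAHol

open Finset MeasureTheory Pool.Agent.N604.MW

theorem amgm {n : ℕ} (hn : n ≠ 0) (f : Fin n → ℝ) (hf : ∀ j, 0 ≤ f j) :
    ∏ j, f j ≤ ∑ j, (n : ℝ)⁻¹ * f j ^ n := by
  have hn' : (n : ℝ) ≠ 0 := Nat.cast_ne_zero.2 hn
  have h := Real.geom_mean_le_arith_mean_weighted univ (fun _ : Fin n => (n : ℝ)⁻¹)
    (fun j => f j ^ n) (fun _ _ => by positivity)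
    (by rw [Finset.sum_const, Finset.card_univ, Fintype.card_fin, nsmul_eq_mul,
      mul_inv_cancel₀ hn'])
    (fun j _ => pow_nonneg (hf j) n)
  refine le_trans (le_of_eq ?_) h
  refine Finset.prod_congr rfl fun j _ => ?_
  rw [Real.pow_rpow_inv_natCast (hf j) hn]

theorem qq_meas : Measurable qq := by
  unfold qq
  refine Measurable.ite ?_ measurable_const (by fun_prop)
  exact measurableSet_le (by fun_prop) measurable_const

theorem qq_nonneg (x : ℝ) : 0 ≤ qq x := by
  unfold qq; split_ifs <;> positivity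

theorem GD_nonneg (n k X : ℕ) (γ : Fin n → ℝ) : 0 ≤ GD n k X γ := by
  unfold GD
  positivity

theorem GD_meas (n k X : ℕ) : Measurable (fun γ : Fin n → ℝ => GD n k X γ) := by
  unfold GD
  fun_prop

theorem ahol : S_AHOL := by
  intro s n k a S B hs hS h
  have hs0 : s ≠ 0 := by omega
  have hQ : Measurable fun γ : Fin n → ℝ => ∏ j, qq (γ j) :=
    Finset.measurable_fun_prod _ fun j _ => qq_meas.comp (measurable_pi_apply j)
  have hQ0 : ∀ γ : Fin n → ℝ, 0 ≤ ∏ j, qq (γ j) := fun γ =>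
    Finset.prod_nonneg fun j _ => qq_nonneg _
  let F : Fin s → (Fin n → ℝ) → ENNReal := fun i => S.indicator
    (fun γ => ENNReal.ofReal ((∏ j, qq (γ j)) * GD n k (XB (a i)) γ ^ s))
  have hF : ∀ i, Measurable (F i) := fun i =>
    (ENNReal.measurable_ofReal.comp (hQ.mul ((GD_meas n k (XB (a i))).pow_const s))).indicator hS
  have h1 : ∀ γ, S.indicator (fun γ => ENNReal.ofReal ((∏ j, qq (γ j)) *
      ∏ i, GD n k (XB (a i)) γ)) γ ≤ ∑ i, ENNReal.ofReal ((s : ℝ)⁻¹) * F i γ := by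
    intro γ
    by_cases hγ : γ ∈ S
    · have h2 : ∀ i, F i γ = ENNReal.ofReal ((∏ j, qq (γ j)) * GD n k (XB (a i)) γ ^ s) :=
        fun i => Set.indicator_of_mem hγ _
      rw [Set.indicator_of_mem hγ]
      simp only [h2]
      have h3 : ∀ i : Fin s, ENNReal.ofReal ((s : ℝ)⁻¹) *
          ENNReal.ofReal ((∏ j, qq (γ j)) * GD n k (XB (a i)) γ ^ s) =
          ENNReal.ofReal ((∏ j, qq (γ j)) * ((s : ℝ)⁻¹ * GD n k (XB (a i)) γ ^ s)) := by
        intro i
        rw [← ENNReal.ofReal_mul (by positivity)]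
        congr 1
        ring
      simp only [h3]
      rw [← ENNReal.ofReal_sum_of_nonneg]
      · apply ENNReal.ofReal_le_ofReal
        rw [← Finset.mul_sum]
        exact mul_le_mul_of_nonneg_left (amgm hs0 _ fun i => GD_nonneg _ _ _ _) (hQ0 γ)
      · intro i _
        have := GD_nonneg n k (XB (a i)) γ
        have := hQ0 γ
        positivity
    · rw [Set.indicator_of_notMem hγ]
      exact zero_le
  refine (lintegral_mono h1).trans ?_
  rw [lintegral_finsetSum _ fun i _ => (hF i).const_mul _]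
  have h2 : ∀ i ∈ (univ : Finset (Fin s)), ∫⁻ γ, ENNReal.ofReal ((s : ℝ)⁻¹) * F i γ ≤
      ENNReal.ofReal ((s : ℝ)⁻¹) * B := by
    intro i _
    rw [lintegral_const_mul _ (hF i)]
    exact mul_le_mul_right (h i) _
  refine (Finset.sum_le_sum h2).trans (le_of_eq ?_)
  rw [Finset.sum_const, Finset.card_univ, Fintype.card_fin, nsmul_eq_mul, ← mul_assoc]
  have h3 : (s : ENNReal) * ENNReal.ofReal ((s : ℝ)⁻¹) = 1 := by
    rw [← ENNReal.ofReal_natCast, ← ENNReal.ofReal_mul (Nat.cast_nonneg s),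
      mul_inv_cancel₀ (Nat.cast_ne_zero.2 hs0), ENNReal.ofReal_one]
  rw [h3, one_mul]

end Pool.Agent.N37.ADAHol
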